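import Pool.Agent.Q224.BH.Nu

/-! # Project BH (helper120), job BCUM (helper224) -/

set_option autoImplicit false

namespace Pool.Agent.Q224.BH

open Finset MeasureTheory Filter Pool.Agent.Q120.ET Pool.Agent.Q120.GM Pool.Agent.Q120.CL Pool.Agent.Q120.MG
  Pool.Agent.Q120.HL Pool.Agent.Q112.LE Pool.Agent.Q120.TT Pool.Agent.Q120.BH Polynomial
open scoped Topology

theorem contract_rho {u η : ℕ → ℝ} {ρ : ℝ} (hρ0 : 0 ≤ ρ) (hρ : ρ < 1) (hu : ∀ k, 0 ≤ u k)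
    (h : ∀ᶠ k in atTop, u (k + 1) ≤ ρ * (u k + η k)) (hη : Tendsto η atTop (𝓝 0)) : Tendsto u atTop (𝓝 0) := by
  rw [Metric.tendsto_atTop]
  intro ε hε
  have hρ1 : 0 < 1 - ρ := by linarith
  have h1 : ∀ᶠ k in atTop, η k < ε * (1 - ρ) / 2 := hη.eventually (gt_mem_nhds (by positivity))
  obtain ⟨K, hK⟩ := eventually_atTop.1 (h.and h1)
  have h2 : ∀ n, u (K + n) ≤ ρ ^ n * u K + ε / 2 := by
    intro n
    induction n with
    | zero => simp; linarith
    | succ n ih =>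
      obtain ⟨h3, h4⟩ := hK (K + n) (by omega)
      have h5 : u (K + (n + 1)) ≤ ρ * (u (K + n) + η (K + n)) := h3
      have h6 : ρ ^ (n + 1) * u K = ρ * (ρ ^ n * u K) := by ring
      rw [h6]
      have h7 : ρ * (u (K + n) + η (K + n)) ≤ ρ * (ρ ^ n * u K + ε / 2 + ε * (1 - ρ) / 2) :=
        mul_le_mul_of_nonneg_left (by linarith) hρ0
      nlinarith [mul_pos hρ1 hρ1, mul_pos hε (mul_pos hρ1 hρ1)]
  have h3 : Tendsto (fun n : ℕ => ρ ^ n * u K) atTop (𝓝 0) := by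
    have := (tendsto_pow_atTop_nhds_zero_of_lt_one hρ0 hρ).mul_const (u K)
    simpa using this
  obtain ⟨M, hM⟩ := eventually_atTop.1 (h3.eventually (gt_mem_nhds (show (0 : ℝ) < ε / 2 by positivity)))
  refine ⟨K + M, fun n hn => ?_⟩
  obtain ⟨m, rfl⟩ := Nat.exists_eq_add_of_le (show K ≤ n by omega)
  rw [Real.dist_eq, sub_zero, abs_of_nonneg (hu _)]
  have := h2 m
  have := hM m (by omega)
  linarith

theorem hit_add (S : Set ℕ) (F : ℤ[X]) {a b c : ℕ} (h1 : a ≤ b) (h2 : b ≤ c) :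
    hit S F a c = hit S F a b + hit S F b c := by
  classical
  unfold hit
  rw [← Finset.card_union_of_disjoint]
  · rw [← filter_union, Ico_union_Ico_eq_Ico h1 h2]
  · exact disjoint_filter_filter (Ico_disjoint_Ico_consecutive a b c)

/-- `w k / w (k + 1)` tends to `2 ^ (- 1 / m)`. -/
theorem wratio' (m : ℕ) : Tendsto (fun k : ℕ => ((2 : ℝ) ^ ((k : ℝ) / m) / k) /
    ((2 : ℝ) ^ (((k + 1 : ℕ) : ℝ) / m) / ((k + 1 : ℕ) : ℝ))) atTop (𝓝 ((2 : ℝ) ^ (1 / (m : ℝ)))⁻¹) := by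
  have h1 : Tendsto (fun k : ℕ => (((k : ℝ) + 1) / k) * ((2 : ℝ) ^ (1 / (m : ℝ)))⁻¹) atTop
      (𝓝 (1 * ((2 : ℝ) ^ (1 / (m : ℝ)))⁻¹)) := by
    refine Tendsto.mul_const _ ?_
    have h2 : Tendsto (fun k : ℕ => 1 + 1 / (k : ℝ)) atTop (𝓝 (1 + 0)) := tendsto_const_nhds.add tendsto_one_div_atTop_nhds_zero_nat
    rw [add_zero] at h2
    refine h2.congr' ?_
    filter_upwards [eventually_ge_atTop 1] with k hk
    have hk0 : (k : ℝ) ≠ 0 := by
      have : (0 : ℝ) < k := by exact_mod_cast hk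
      exact this.ne'
    field_simp
  rw [one_mul] at h1
  refine h1.congr' ?_
  filter_upwards [eventually_ge_atTop 1] with k hk
  have hk0 : (0 : ℝ) < k := by exact_mod_cast hk
  have hk1 : (0 : ℝ) < (k : ℝ) + 1 := by positivity
  rw [rpow_succ]
  have hP : (0 : ℝ) < (2 : ℝ) ^ ((k : ℝ) / m) := by positivity
  have hq : (0 : ℝ) < (2 : ℝ) ^ (1 / (m : ℝ)) := by positivity
  push_cast
  field_simp

section

variable {F : ℤ[X]} {m n₀ : ℕ} {C : ℝ} {S : Set ℕ}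

theorem block_lawB (hS : ∀ e : ℝ, 0 < e → ∀ᶠ k : ℕ in atTop, ¬ BadB F m n₀ C k e S) {e : ℝ} (he : 0 < e) :
    ∀ᶠ k : ℕ in atTop, ∀ b : ℕ, nu F n₀ k ≤ b → b ≤ nu F n₀ (k + 1) →
      |(hit S F (nu F n₀ k) b : ℝ) - C * ((b : ℝ) - nu F n₀ k) / (k * Real.log 2)| <
        e * ((2 : ℝ) ^ ((k : ℝ) / m) / k) := by
  filter_upwards [hS e he] with k hk b hb1 hb2
  by_contra hcon
  rw [not_lt] at hcon
  exact hk ⟨b, hb1, hb2, hcon⟩

/-- The number of values below the block. -/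
theorem cumB (hM : J_MONO) (hF : Good F m C) (hmono : Mono F n₀)
    (hS : ∀ e : ℝ, 0 < e → ∀ᶠ k : ℕ in atTop, ¬ BadB F m n₀ C k e S) :
    Tendsto (fun k : ℕ => |(hit S F 0 (nu F n₀ k) : ℝ) - C * nu F n₀ k / (k * Real.log 2)| /
      ((2 : ℝ) ^ ((k : ℝ) / m) / k)) atTop (𝓝 0) := by
  have hl : 0 < Real.log 2 := Real.log_pos (by norm_num)
  have hC := hF.Cpos
  obtain ⟨_, ⟨c, hc, hc1⟩, _⟩ := hM F (by rw [hF.deg]; exact hF.pos) hF.lead
  have hν := hc1 n₀ hmono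
  rw [hF.deg] at hν
  obtain ⟨w, hw⟩ : ∃ w : ℕ → ℝ, w = fun k : ℕ => (2 : ℝ) ^ ((k : ℝ) / m) / k := ⟨_, rfl⟩
  have hw0 : ∀ k, 1 ≤ k → 0 < w k := by
    intro k hk
    have : (0 : ℝ) < k := by exact_mod_cast hk
    rw [hw]
    positivity
  obtain ⟨e, he⟩ : ∃ e : ℕ → ℝ, e = fun k : ℕ => |(hit S F (nu F n₀ k) (nu F n₀ (k + 1)) : ℝ) -
    C * ((nu F n₀ (k + 1) : ℝ) - nu F n₀ k) / (k * Real.log 2)| / w k := ⟨_, rfl⟩
  have he0 : Tendsto e atTop (𝓝 0) := by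
    rw [Metric.tendsto_atTop']
    intro ε hε
    obtain ⟨K, hK⟩ := eventually_atTop.1 (block_lawB hS hε)
    refine ⟨max K 1, fun k hk => ?_⟩
    have hkK : K ≤ k := (le_max_left K 1).trans hk.le
    have hk1 : 1 ≤ k := (le_max_right K 1).trans hk.le
    have h1 := hK k hkK (nu F n₀ (k + 1)) (nu_mono hmono k) le_rfl
    have h2 := hw0 k hk1
    rw [Real.dist_eq, sub_zero, he, abs_of_nonneg (by positivity), div_lt_iff₀ h2]
    have h4 : (2 : ℝ) ^ ((k : ℝ) / m) / k = w k := by rw [hw]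
    rw [h4] at h1
    exact h1
  obtain ⟨g, hg⟩ : ∃ g : ℕ → ℝ, g = fun k : ℕ => C / Real.log 2 * ((nu F n₀ (k + 1) : ℝ) / (2 : ℝ) ^ (((k + 1 : ℕ) : ℝ) / m)) *
    (2 : ℝ) ^ (1 / (m : ℝ)) * (1 / ((k : ℝ) + 1)) := ⟨_, rfl⟩
  have hg0 : Tendsto g atTop (𝓝 0) := by
    have h1 : Tendsto (fun k : ℕ => C / Real.log 2 * ((nu F n₀ (k + 1) : ℝ) / (2 : ℝ) ^ (((k + 1 : ℕ) : ℝ) / m)) *
        (2 : ℝ) ^ (1 / (m : ℝ)) * (1 / ((k : ℝ) + 1))) atTop (𝓝 (C / Real.log 2 * c * (2 : ℝ) ^ (1 / (m : ℝ)) * 0)) := by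
      refine Tendsto.mul (Tendsto.mul_const _ (Tendsto.const_mul _ ?_)) tendsto_one_div_add_atTop_nhds_zero_nat
      exact hν.comp (tendsto_add_atTop_nat 1)
    rw [mul_zero] at h1
    rw [hg]
    exact h1
  obtain ⟨r, hr⟩ : ∃ r : ℕ → ℝ, r = fun k => w k / w (k + 1) := ⟨_, rfl⟩
  have hr1 : Tendsto r atTop (𝓝 ((2 : ℝ) ^ (1 / (m : ℝ)))⁻¹) := by
    refine (wratio' m).congr (fun k => ?_)
    rw [hr, hw]
  have hq : 1 < (2 : ℝ) ^ (1 / (m : ℝ)) := one_lt_rpow hF.pos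
  have hqi : ((2 : ℝ) ^ (1 / (m : ℝ)))⁻¹ < 1 := inv_lt_one_of_one_lt₀ hq
  have hqi0 : 0 < ((2 : ℝ) ^ (1 / (m : ℝ)))⁻¹ := by positivity
  obtain ⟨ρ, hρ⟩ : ∃ ρ : ℝ, ρ = (1 + ((2 : ℝ) ^ (1 / (m : ℝ)))⁻¹) / 2 := ⟨_, rfl⟩
  have hρ0 : 0 ≤ ρ := by rw [hρ]; linarith
  have hρ1 : ρ < 1 := by rw [hρ]; linarith
  have hρ2 : ((2 : ℝ) ^ (1 / (m : ℝ)))⁻¹ < ρ := by rw [hρ]; linarith
  have hη0 : Tendsto (fun k => e k + g k) atTop (𝓝 0) := by
    have := he0.add hg0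
    rwa [add_zero] at this
  refine contract_rho hρ0 hρ1 (η := fun k => e k + g k) (fun k => by positivity) ?_ hη0
  filter_upwards [eventually_ge_atTop 1, hr1.eventually (gt_mem_nhds hρ2)] with k hk hrk
  have hwk := hw0 k hk
  have hwk1 := hw0 (k + 1) (by omega)
  have hk0 : (0 : ℝ) < k := by exact_mod_cast hk
  have e1 : (2 : ℝ) ^ ((k : ℝ) / m) / k = w k := by rw [hw]
  have e2 : (2 : ℝ) ^ (((k + 1 : ℕ) : ℝ) / m) / ((k + 1 : ℕ) : ℝ) = w (k + 1) := by rw [hw]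
  rw [e1, e2]
  have h1 := hit_add S F (Nat.zero_le (nu F n₀ k)) (nu_mono hmono k)
  rw [h1]
  obtain ⟨N, hN⟩ : ∃ N : ℝ, N = hit S F 0 (nu F n₀ k) := ⟨_, rfl⟩
  obtain ⟨X, hX⟩ : ∃ X : ℝ, X = hit S F (nu F n₀ k) (nu F n₀ (k + 1)) := ⟨_, rfl⟩
  obtain ⟨a, ha⟩ : ∃ a : ℝ, a = nu F n₀ k := ⟨_, rfl⟩
  obtain ⟨b, hb⟩ : ∃ b : ℝ, b = nu F n₀ (k + 1) := ⟨_, rfl⟩
  push_cast
  rw [← hN, ← hX, ← ha, ← hb]
  have hb0 : 0 ≤ b := by rw [hb]; positivity
  have h2 : |N + X - C * b / (((k : ℝ) + 1) * Real.log 2)| ≤ |N - C * a / (k * Real.log 2)| +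
      |X - C * (b - a) / (k * Real.log 2)| + |C * b / (k * (k + 1) * Real.log 2)| := by
    have e3 : N + X - C * b / (((k : ℝ) + 1) * Real.log 2) = (N - C * a / (k * Real.log 2)) +
        (X - C * (b - a) / (k * Real.log 2)) + C * b / (k * (k + 1) * Real.log 2) := by
      field_simp
      ring
    rw [e3]
    exact abs_add_three _ _ _
  have h3 : |X - C * (b - a) / (k * Real.log 2)| = e k * w k := by
    rw [he, hX, ha, hb]
    field_simp
  have h4 : |C * b / (k * (k + 1) * Real.log 2)| = g k * w k := by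
    rw [abs_of_nonneg (by positivity), hg, hw]
    simp only
    rw [← hb, rpow_succ]
    have hP : (0 : ℝ) < (2 : ℝ) ^ ((k : ℝ) / m) := by positivity
    have hq0 : (0 : ℝ) < (2 : ℝ) ^ (1 / (m : ℝ)) := by positivity
    field_simp
  have h5 : r k = w k / w (k + 1) := by rw [hr]
  have h6 : 0 ≤ |N - C * a / (k * Real.log 2)| / w k + (e k + g k) := by
    have h7 : 0 ≤ e k := by rw [he]; positivity
    have h8 : 0 ≤ g k := by rw [hg]; positivity
    positivity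
  calc |N + X - C * b / (((k : ℝ) + 1) * Real.log 2)| / w (k + 1) ≤
        (|N - C * a / (k * Real.log 2)| + e k * w k + g k * w k) / w (k + 1) := by
        refine div_le_div_of_nonneg_right ?_ hwk1.le
        rw [← h3, ← h4]
        exact h2
    _ = (|N - C * a / (k * Real.log 2)| / w k + (e k + g k)) * r k := by
        rw [h5]
        field_simp
        ring
    _ ≤ (|N - C * a / (k * Real.log 2)| / w k + (e k + g k)) * ρ := mul_le_mul_of_nonneg_left hrk.le h6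
    _ = ρ * (|N - C * a / (k * Real.log 2)| / w k + (e k + g k)) := by ring

end

theorem t_BCUM : J_BCUM := by
  intro hM F m C n₀ S hF hmono hS
  have hl : 0 < Real.log 2 := Real.log_pos (by norm_num)
  have hC := hF.Cpos
  obtain ⟨_, ⟨c, hc, hc1⟩, hlog⟩ := hM F (by rw [hF.deg]; exact hF.pos) hF.lead
  have hν := hc1 n₀ hmono
  rw [hF.deg] at hν hlog
  have hm0 : (0 : ℝ) < m := by exact_mod_cast hF.pos
  have hva := va_tendsto hmono
  have hκ : Tendsto (fun x : ℕ => Nat.log 2 (va F x)) atTop atTop := log_tendsto.comp hva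
  have hmain : Tendsto (fun x : ℕ => (hit S F 0 x : ℝ) / (x / (Nat.log 2 (va F x) : ℝ))) atTop (𝓝 (C / Real.log 2)) := by
    rw [Metric.tendsto_atTop']
    intro ε hε
    have h1 := cumB hM hF hmono hS
    have h2 : ∀ᶠ k : ℕ in atTop, |(hit S F 0 (nu F n₀ k) : ℝ) - C * nu F n₀ k / (k * Real.log 2)| /
        ((2 : ℝ) ^ ((k : ℝ) / m) / k) < ε * c / 8 := h1.eventually (gt_mem_nhds (by positivity))
    have h3 := block_lawB hS (show 0 < ε * c / 8 by positivity)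
    have h4 : ∀ᶠ k : ℕ in atTop, c / 2 < (nu F n₀ k : ℝ) / (2 : ℝ) ^ ((k : ℝ) / m) :=
      hν.eventually (lt_mem_nhds (by linarith))
    have h5 : ∀ᶠ x : ℕ in atTop, dist ((hit S F 0 x : ℝ) / (x / (Nat.log 2 (va F x) : ℝ))) (C / Real.log 2) < ε := by
      filter_upwards [hκ.eventually h2, hκ.eventually h3, hκ.eventually h4, hκ.eventually (eventually_ge_atTop 1),
        eventually_ge_atTop (n₀ + 1)] with x e1 e2 e3 e4 hx
      obtain ⟨k, hk⟩ : ∃ k, k = Nat.log 2 (va F x) := ⟨_, rfl⟩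
      rw [← hk] at e1 e2 e3 e4 ⊢
      have hk0 : (0 : ℝ) < k := by exact_mod_cast e4
      have hva1 : va F x ≠ 0 := by
        have := (hmono x (by omega)).1
        omega
      have hxk : nu F n₀ k ≤ x := nu_le (by omega) (by rw [hk]; exact Nat.pow_log_le_self 2 hva1)
      have hxk2 : x < nu F n₀ (k + 1) :=
        lt_nu hmono (by rw [hk]; exact Nat.lt_pow_succ_log_self (by norm_num : 1 < 2) _)
      have hx0 : (0 : ℝ) < x := by exact_mod_cast (show 0 < x by omega)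
      obtain ⟨P, hP⟩ : ∃ P : ℝ, P = (2 : ℝ) ^ ((k : ℝ) / m) := ⟨_, rfl⟩
      have hP0 : 0 < P := by rw [hP]; positivity
      rw [← hP] at e1 e3
      rw [lt_div_iff₀ hP0] at e3
      rw [div_lt_iff₀ (by positivity)] at e1
      have h6 := hit_add S F (Nat.zero_le (nu F n₀ k)) hxk
      have h7 := e2 x hxk hxk2.le
      rw [← hP] at h7
      rw [Real.dist_eq]
      have h8 : (hit S F 0 x : ℝ) - C * x / (k * Real.log 2) = ((hit S F 0 (nu F n₀ k) : ℝ) - C * nu F n₀ k / (k * Real.log 2)) +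
          ((hit S F (nu F n₀ k) x : ℝ) - C * ((x : ℝ) - nu F n₀ k) / (k * Real.log 2)) := by
        rw [h6]
        push_cast
        field_simp
        ring
      have h9 : |(hit S F 0 x : ℝ) - C * x / (k * Real.log 2)| ≤ |(hit S F 0 (nu F n₀ k) : ℝ) - C * nu F n₀ k / (k * Real.log 2)| +
          |(hit S F (nu F n₀ k) x : ℝ) - C * ((x : ℝ) - nu F n₀ k) / (k * Real.log 2)| := by
        rw [h8]
        exact abs_add_le _ _
      have h10 : (nu F n₀ k : ℝ) ≤ x := by exact_mod_cast hxk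
      have h11 : c * (P / k) ≤ 2 * (x / k) := by
        rw [← mul_div_assoc, ← mul_div_assoc]
        exact div_le_div_of_nonneg_right (by linarith) hk0.le
      have h12 : (hit S F 0 x : ℝ) / (x / (k : ℝ)) - C / Real.log 2 =
          ((hit S F 0 x : ℝ) - C * x / (k * Real.log 2)) / (x / (k : ℝ)) := by
        field_simp
      have h13 : 0 < (x : ℝ) / (k : ℝ) := by positivity
      rw [h12, abs_div, abs_of_pos h13, div_lt_iff₀ h13]
      have h14 : ε * c / 8 * (P / k) = ε / 8 * (c * (P / k)) := by ring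
      rw [h14] at e1 h7
      have h15 : ε / 8 * (c * (P / k)) ≤ ε / 8 * (2 * (x / k)) := mul_le_mul_of_nonneg_left h11 (by positivity)
      have h16 : 0 < ε * ((x : ℝ) / k) := by positivity
      nlinarith
    obtain ⟨N, hN⟩ := eventually_atTop.1 h5
    exact ⟨N, fun n hn => hN n hn.le⟩
  have h2 : Tendsto (fun x : ℕ => Real.log (va F x) / (Nat.log 2 (va F x) : ℝ)) atTop (𝓝 (Real.log 2)) := log_ratio.comp hva
  have h3 := hmain.mul ((hlog.inv₀ hm0.ne').mul h2)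
  have h4 : C / Real.log 2 * ((m : ℝ)⁻¹ * Real.log 2) = C / m := by field_simp
  rw [h4] at h3
  refine h3.congr' ?_
  filter_upwards [eventually_ge_atTop 2, hκ.eventually (eventually_ge_atTop 1), hva.eventually (eventually_ge_atTop 2)]
    with x hx hk hv
  have hk0 : (0 : ℝ) < Nat.log 2 (va F x) := by exact_mod_cast hk
  have hx0 : (0 : ℝ) < x := by
    have : (2 : ℝ) ≤ x := by exact_mod_cast hx
    linarith
  have hlx : 0 < Real.log x := Real.log_pos (by exact_mod_cast (show 1 < x by omega))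
  have hlv : 0 < Real.log (va F x) := Real.log_pos (by exact_mod_cast (show 1 < va F x by omega))
  rw [inv_div]
  field_simp

end Pool.Agent.Q224.BH
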