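import Pool.Agent.Q224.BH.Nu

/-! # Project BH (helper120), job BBAD (helper224) -/

set_option autoImplicit false

namespace Pool.Agent.Q224.BH

open Finset MeasureTheory Filter Pool.Agent.Q120.ET Pool.Agent.Q120.GM Pool.Agent.Q120.CL Pool.Agent.Q120.MG
  Pool.Agent.Q120.HL Pool.Agent.Q112.LE Pool.Agent.Q120.TT Pool.Agent.Q120.BH Polynomial
open scoped Topology

open Classical in
theorem t_BBAD : J_BBAD := by
  intro hT hM hBT hBM z F m C n₀ hF hmono hz hzk e he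
  have hl : 0 < Real.log 2 := Real.log_pos (by norm_num)
  have hC := hF.Cpos
  obtain ⟨K, hK, hKev⟩ := nu_upper hM hF hmono
  obtain ⟨C1, hC1⟩ : ∃ C1 : ℝ, C1 = 2 * K * C / Real.log 2 + e / 2 := ⟨_, rfl⟩
  have hC10 : 0 < C1 := by rw [hC1]; positivity
  obtain ⟨c2, hc2⟩ : ∃ c2 : ℝ, c2 = (e / 2) ^ 2 / (4 * (C1 + e / 2)) := ⟨_, rfl⟩
  have hc20 : 0 < c2 := by rw [hc2]; positivity
  refine ⟨c2 / 2, by linarith, ?_⟩
  filter_upwards [hBM hM z F m C n₀ hF hmono hz hzk (e / 2) (by positivity),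
    (tendsto_add_atTop_nat 1).eventually hKev, rpow_large 4 hF.pos (show 0 < c2 / 2 by linarith),
    eventually_ge_atTop 1] with k h1 h2 h3 hk1
  have hk0 : (0 : ℝ) < k := by exact_mod_cast hk1
  have hk1' : (1 : ℝ) ≤ k := by exact_mod_cast hk1
  rw [rpow_succ] at h2
  obtain ⟨P, hP⟩ : ∃ P : ℝ, P = (2 : ℝ) ^ ((k : ℝ) / m) := ⟨_, rfl⟩
  have hP0 : 0 < P := by rw [hP]; positivity
  obtain ⟨w, hw⟩ : ∃ w : ℝ, w = P / k := ⟨_, rfl⟩
  have hw0 : 0 < w := by rw [hw]; positivity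
  rw [← hP] at h2
  simp only [← hP, ← hw] at h1 h3 ⊢
  have h2' : (nu F n₀ (k + 1) : ℝ) ≤ 2 * K * P := by
    refine h2.trans ?_
    have := rpow_one_le hF.pos
    have h5 : P * (2 : ℝ) ^ (1 / (m : ℝ)) ≤ P * 2 := mul_le_mul_of_nonneg_left this hP0.le
    calc K * (P * (2 : ℝ) ^ (1 / (m : ℝ))) ≤ K * (P * 2) := mul_le_mul_of_nonneg_left h5 hK.le
      _ = 2 * K * P := by ring
  obtain ⟨a, ha⟩ : ∃ a, a = nu F n₀ k := ⟨_, rfl⟩
  have han : n₀ ≤ a := by rw [ha]; exact (nu_mem hmono k).1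
  have hblk : ∀ b, b ≤ nu F n₀ (k + 1) → ∀ n ∈ Ico a b, va F n ∈ block k := by
    intro b hb n hn
    rw [mem_Ico] at hn
    apply nu_block hmono
    rw [mem_Ico, ← ha]
    exact ⟨hn.1, lt_of_lt_of_le hn.2 hb⟩
  have h4 : ∀ b ∈ Icc a (nu F n₀ (k + 1)),
      ∑ T ∈ (block k).powerset with e / 2 * w ≤ |(hit ((T : Finset ℕ) : Set ℕ) F a b : ℝ) - ex (pr z) F a b|,
        prodOn (pr z) (block k) T ≤ 2 * Real.exp (-(c2 * w)) := by
    intro b hb
    rw [mem_Icc] at hb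
    have h5 := (abs_le.1 (h1 a b han hb.1 (hblk b hb.2))).2
    have h6 : ex (pr z) F a b ≤ C1 * w := by
      have h7 : C * ((b : ℝ) - a) / (k * Real.log 2) ≤ 2 * K * C / Real.log 2 * w := by
        have h8 : (b : ℝ) - a ≤ 2 * K * P := by
          have e1 : (b : ℝ) ≤ nu F n₀ (k + 1) := by exact_mod_cast hb.2
          have e2 : (0 : ℝ) ≤ a := Nat.cast_nonneg a
          linarith
        have h9 : C * ((b : ℝ) - a) / (k * Real.log 2) ≤ C * (2 * K * P) / (k * Real.log 2) :=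
          div_le_div_of_nonneg_right (mul_le_mul_of_nonneg_left h8 hC.le) (by positivity)
        refine h9.trans (le_of_eq ?_)
        rw [hw]
        field_simp
      rw [hC1]
      linarith
    have h7 := hBT hT F n₀ hmono (pr z) (pr_ok z) k a b han hb.1 (hblk b hb.2) (C1 * w) (e / 2 * w) h6 (by positivity)
    refine h7.trans (le_of_eq ?_)
    have h8 : (e / 2 * w) ^ 2 / (4 * (C1 * w + e / 2 * w)) = c2 * w := by
      rw [hc2]
      have : C1 + e / 2 ≠ 0 := by positivity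
      have h9 : C1 * w + e / 2 * w = (C1 + e / 2) * w := by ring
      rw [h9]
      field_simp
    rw [h8]
  have h5 : ∑ T ∈ (block k).powerset with BadB F m n₀ C k e ((T : Finset ℕ) : Set ℕ), prodOn (pr z) (block k) T ≤
      ∑ b ∈ Icc a (nu F n₀ (k + 1)), ∑ T ∈ (block k).powerset with
        e / 2 * w ≤ |(hit ((T : Finset ℕ) : Set ℕ) F a b : ℝ) - ex (pr z) F a b|, prodOn (pr z) (block k) T := by
    refine le_trans (sum_le_sum_of_subset_of_nonneg ?_ ?_)
      (sum_exists_le (fun T hT => prodOn_nonneg (fun n _ => pr_ok z n) (mem_powerset.1 hT)) _ _)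
    · intro T hT
      rw [mem_filter] at hT ⊢
      refine ⟨hT.1, ?_⟩
      obtain ⟨b, hb1, hb2, hb3⟩ := hT.2
      rw [← ha] at hb1 hb3
      rw [← hP, ← hw] at hb3
      refine ⟨b, mem_Icc.2 ⟨hb1, hb2⟩, ?_⟩
      have h6 := h1 a b han hb1 (hblk b hb2)
      have h7 := abs_sub_le (hit ((T : Finset ℕ) : Set ℕ) F a b : ℝ) (ex (pr z) F a b)
        (C * ((b : ℝ) - a) / (k * Real.log 2))
      linarith
    · intro T hT _
      exact prodOn_nonneg (fun n _ => pr_ok z n) (mem_powerset.1 (mem_filter.1 hT).1)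
  refine h5.trans ((sum_le_sum h4).trans ?_)
  rw [sum_const, nsmul_eq_mul]
  have h6 : (((Icc a (nu F n₀ (k + 1))).card : ℕ) : ℝ) ≤ 2 ^ (k + 2) := by
    have h7 : (Icc a (nu F n₀ (k + 1))).card ≤ 2 ^ (k + 2) := by
      rw [Nat.card_Icc]
      have h8 := nu_bound hmono k
      rw [← ha] at h8
      have h9 : 1 ≤ 2 ^ (k + 1) := Nat.one_le_two_pow
      have h10 : 2 ^ (k + 2) = 2 * 2 ^ (k + 1) := by rw [pow_succ]; ring
      omega
    exact_mod_cast h7
  have h7 : (2 : ℝ) ^ (k + 3) = Real.exp ((k + 3) * Real.log 2) := by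
    rw [← Real.rpow_natCast, Real.rpow_def_of_pos (by norm_num)]
    push_cast
    ring_nf
  calc _ ≤ (2 : ℝ) ^ (k + 2) * (2 * Real.exp (-(c2 * w))) :=
        mul_le_mul_of_nonneg_right h6 (by positivity)
    _ = (2 : ℝ) ^ (k + 3) * Real.exp (-(c2 * w)) := by
        rw [show k + 3 = k + 2 + 1 from rfl, pow_succ (2 : ℝ) (k + 2)]
        ring
    _ = Real.exp ((k + 3) * Real.log 2 + -(c2 * w)) := by
        rw [Real.exp_add, ← h7]
    _ ≤ Real.exp (-(c2 / 2 * w)) := by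
        apply Real.exp_le_exp.2
        have h8 : Real.log 2 ≤ 1 := by
          have := Real.log_two_lt_d9
          linarith
        have h9 : ((k : ℝ) + 3) * Real.log 2 ≤ 4 * k := by nlinarith
        nlinarith

end Pool.Agent.Q224.BH
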