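import Pool.Agent.Q120.BH.Stm
import Pool.Agent.Q150.TT.MIXL

/-! # Project BH (helper120), job DELW (helper224) -/

set_option autoImplicit false

namespace Pool.Agent.Q224.BH

open Finset Pool.Agent.Q120.TT Pool.Agent.Q120.BH

open Classical in
theorem neg_log_le {p : ℝ} (h0 : 0 ≤ p) (h1 : p ≤ 1 / 2) : -Real.log (1 - p) ≤ 2 * p := by
  have h2 : 0 < 1 - p := by linarith
  have h3 := Real.log_le_sub_one_of_pos (inv_pos.2 h2)
  rw [Real.log_inv] at h3
  refine h3.trans ?_
  rw [sub_le_iff_le_add, inv_eq_one_div, div_le_iff₀ h2]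
  nlinarith

open Classical in
theorem t_DELW : J_DELW := by
  intro p B W hp
  obtain ⟨p', hp'⟩ : ∃ p' : ℕ → ℝ, p' = fun n => if n ∈ W then 0 else p n := ⟨_, rfl⟩
  rw [← hp']
  have hW : ∀ n, n ∈ W → p' n = 0 := fun n hn => by rw [hp']; simp only [if_pos hn]
  have hW' : ∀ n, n ∉ W → p' n = p n := fun n hn => by rw [hp']; simp only [if_neg hn]
  have hp1 : ∀ n ∈ B, 0 ≤ p' n ∧ p' n ≤ 1 := by
    intro n hn
    by_cases h : n ∈ W
    · rw [hW n h]; exact ⟨le_rfl, zero_le_one⟩
    · rw [hW' n h]; exact ⟨(hp n hn).1, by linarith [(hp n hn).2]⟩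
  have hL := Pool.Agent.Q150.TT.isLaw_prodOn p' B hp1
  have hP : ∀ n ∈ B, 0 ≤ p n ∧ p n ≤ 1 := fun n hn => ⟨(hp n hn).1, by linarith [(hp n hn).2]⟩
  have hLp := Pool.Agent.Q150.TT.isLaw_prodOn p B hP
  have hcont : ∀ T ∈ B.powerset, prodOn p B T = 0 → prodOn p' B T = 0 := by
    intro T hT h0
    unfold prodOn at h0 ⊢
    rcases mul_eq_zero.1 h0 with h1 | h1
    · obtain ⟨n, hn, hn0⟩ := prod_eq_zero_iff.1 h1
      have h2 : p' n = 0 := by
        by_cases h : n ∈ W
        · exact hW n h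
        · rw [hW' n h]; exact hn0
      rw [prod_eq_zero hn h2, zero_mul]
    · obtain ⟨n, hn, hn0⟩ := prod_eq_zero_iff.1 h1
      have := (hp n (mem_sdiff.1 hn).1).2
      linarith
  have hdis : ∀ T ∈ B.powerset, prodOn p' B T ≠ 0 → ∀ n ∈ T, n ∉ W := by
    intro T _ h0 n hn hnW
    apply h0
    unfold prodOn
    rw [prod_eq_zero hn (hW n hnW), zero_mul]
  refine ⟨⟨hL.nonneg, hL.total, hcont⟩, hdis, ?_⟩
  have hSn : 0 ≤ ∑ n ∈ B with n ∈ W, 2 * p n :=
    sum_nonneg fun n hn => by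
      have := (hp n (mem_filter.1 hn).1).1
      linarith
  have key : ∀ T ∈ B.powerset, prodOn p' B T * Real.log (prodOn p' B T / prodOn p B T) ≤
      prodOn p' B T * ∑ n ∈ B with n ∈ W, 2 * p n := by
    intro T hT
    by_cases h0 : prodOn p' B T = 0
    · rw [h0]; simp
    refine mul_le_mul_of_nonneg_left ?_ (hL.nonneg T hT)
    have hTB : T ⊆ B := mem_powerset.1 hT
    have hd := hdis T hT h0
    have hPne : prodOn p B T ≠ 0 := fun h => h0 (hcont T hT h)
    have hprod : prodOn p B T = prodOn p' B T * ∏ n ∈ B with n ∈ W, (1 - p n) := by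
      unfold prodOn
      have e1 : ∏ n ∈ T, p' n = ∏ n ∈ T, p n := prod_congr rfl fun n hn => hW' n (hd n hn)
      have e2 : ∏ n ∈ B \ T, (1 - p n) = (∏ n ∈ B \ T, (1 - p' n)) * ∏ n ∈ B with n ∈ W, (1 - p n) := by
        have e3 : (B.filter fun n => n ∈ W) = (B \ T).filter fun n => n ∈ W := by
          ext n
          simp only [mem_filter, mem_sdiff]
          constructor
          · rintro ⟨h1, h2⟩
            exact ⟨⟨h1, fun h3 => hd n h3 h2⟩, h2⟩
          · rintro ⟨⟨h1, _⟩, h2⟩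
            exact ⟨h1, h2⟩
        rw [e3, prod_filter, ← prod_mul_distrib]
        refine prod_congr rfl fun n _ => ?_
        by_cases h : n ∈ W
        · rw [if_pos h, hW n h]; ring
        · rw [if_neg h, hW' n h]; ring
      rw [e1, e2]
      ring
    have hQ : 0 < ∏ n ∈ B with n ∈ W, (1 - p n) :=
      prod_pos fun n hn => by
        have := (hp n (mem_filter.1 hn).1).2
        linarith
    have hratio : prodOn p' B T / prodOn p B T = (∏ n ∈ B with n ∈ W, (1 - p n))⁻¹ := by
      rw [hprod]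
      field_simp
    rw [hratio, Real.log_inv, Real.log_prod (fun n hn => by
        have := (hp n (mem_filter.1 hn).1).2
        linarith), ← sum_neg_distrib]
    exact sum_le_sum fun n hn => neg_log_le (hp n (mem_filter.1 hn).1).1 (hp n (mem_filter.1 hn).1).2
  unfold entOf
  refine (sum_le_sum key).trans ?_
  rw [← sum_mul, hL.total, one_mul]

end Pool.Agent.Q224.BH
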