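import Pool.Agent.Q120.BH.Stm
import Pool.Agent.Q120.TT.Asy

/-! # Project BH (helper120): the positions of the blocks (helper224) -/

set_option autoImplicit false

namespace Pool.Agent.Q224.BH

open Finset Filter Pool.Agent.Q120.TT Pool.Agent.Q120.BH Pool.Agent.Q120.ET Pool.Agent.Q120.CL Polynomial
open scoped Topology

section

variable {F : ℤ[X]} {n₀ : ℕ}

theorem va_ge (h : Mono F n₀) (j : ℕ) : j + 1 ≤ va F (n₀ + j) := by
  induction j with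
  | zero => simpa using (h n₀ le_rfl).1
  | succ j ih =>
    have h1 := (h (n₀ + j) (by omega)).2
    have h2 : n₀ + (j + 1) = n₀ + j + 1 := by omega
    rw [h2]
    omega

theorem va_mono (h : Mono F n₀) {a b : ℕ} (ha : n₀ ≤ a) (hab : a ≤ b) : va F a ≤ va F b := by
  induction b, hab using Nat.le_induction with
  | base => exact le_rfl
  | succ b hb ih =>
    have h1 := (h b (by omega)).2
    omega

theorem va_strict (h : Mono F n₀) {a b : ℕ} (ha : n₀ ≤ a) (hab : a < b) : va F a < va F b := by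
  have h1 := (h a ha).2
  have h2 := va_mono h (show n₀ ≤ a + 1 by omega) (show a + 1 ≤ b from hab)
  omega

theorem va_tendsto (h : Mono F n₀) : Tendsto (va F) atTop atTop := by
  rw [tendsto_atTop_atTop]
  intro K
  refine ⟨n₀ + K, fun n hn => ?_⟩
  have h1 := va_ge h K
  have h2 := va_mono h (show n₀ ≤ n₀ + K by omega) hn
  omega

theorem nu_nonempty (h : Mono F n₀) (k : ℕ) : {n | n₀ ≤ n ∧ 2 ^ k ≤ va F n}.Nonempty :=
  ⟨n₀ + 2 ^ k, Nat.le_add_right _ _, (Nat.le_succ _).trans (va_ge h (2 ^ k))⟩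

theorem nu_mem (h : Mono F n₀) (k : ℕ) : n₀ ≤ nu F n₀ k ∧ 2 ^ k ≤ va F (nu F n₀ k) :=
  Nat.sInf_mem (nu_nonempty h k)

theorem nu_le {k n : ℕ} (hn : n₀ ≤ n) (h2 : 2 ^ k ≤ va F n) : nu F n₀ k ≤ n :=
  Nat.sInf_le ⟨hn, h2⟩

theorem lt_nu (h : Mono F n₀) {k n : ℕ} (h2 : va F n < 2 ^ k) : n < nu F n₀ k := by
  by_contra hcon
  rw [not_lt] at hcon
  obtain ⟨h3, h4⟩ := nu_mem h k
  have h5 := va_mono h h3 hcon
  omega

theorem nu_mono (h : Mono F n₀) (k : ℕ) : nu F n₀ k ≤ nu F n₀ (k + 1) := by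
  obtain ⟨h1, h2⟩ := nu_mem h (k + 1)
  refine nu_le h1 (le_trans ?_ h2)
  exact Nat.pow_le_pow_right (by norm_num) (by omega)

theorem nu_block (h : Mono F n₀) {k : ℕ} : ∀ n ∈ Ico (nu F n₀ k) (nu F n₀ (k + 1)), va F n ∈ block k := by
  intro n hn
  rw [mem_Ico] at hn
  obtain ⟨h1, h2⟩ := nu_mem h k
  unfold block
  rw [mem_Ico]
  refine ⟨h2.trans (va_mono h h1 hn.1), ?_⟩
  by_contra hcon
  rw [not_lt] at hcon
  have := nu_le (F := F) (n₀ := n₀) (h1.trans hn.1) hcon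
  omega

theorem nu_bound (h : Mono F n₀) (k : ℕ) : nu F n₀ (k + 1) ≤ nu F n₀ k + 2 ^ (k + 1) := by
  have h1 := va_ge h (2 ^ (k + 1))
  have h2 := nu_le (F := F) (n₀ := n₀) (k := k + 1) (n := n₀ + 2 ^ (k + 1)) (Nat.le_add_right _ _) (by omega)
  have h3 := (nu_mem h k).1
  omega

end

theorem two_rpow (k m : ℕ) : ((2 : ℝ) ^ k) ^ (1 / (m : ℝ)) = (2 : ℝ) ^ ((k : ℝ) / m) := by
  rw [← Real.rpow_natCast, ← Real.rpow_mul (by norm_num)]
  congr 1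
  ring

/-- `2 ^ (k / m) / k` grows faster than `k`. -/
theorem rpow_large (K : ℝ) {m : ℕ} (hm : 1 ≤ m) {c : ℝ} (hc : 0 < c) :
    ∀ᶠ k : ℕ in atTop, K * k ≤ c * ((2 : ℝ) ^ ((k : ℝ) / m) / k) := by
  have hm0 : (0 : ℝ) < m := by exact_mod_cast hm
  filter_upwards [ev_two (|K| / c) 2 (e := 1 / (m : ℝ)) (by positivity), eventually_ge_atTop 1] with k hk hk1
  have hk0 : (0 : ℝ) < k := by exact_mod_cast hk1
  rw [two_rpow] at hk
  have h1 : K * k ≤ |K| * k := mul_le_mul_of_nonneg_right (le_abs_self K) hk0.le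
  have h2 : |K| * k ≤ c * ((2 : ℝ) ^ ((k : ℝ) / m) / k) := by
    rw [← mul_div_assoc, le_div_iff₀ (by positivity)]
    have h3 : c * (|K| / c * (k : ℝ) ^ 2) ≤ c * (2 : ℝ) ^ ((k : ℝ) / m) := mul_le_mul_of_nonneg_left hk hc.le
    have h4 : c * (|K| / c * (k : ℝ) ^ 2) = |K| * k * k := by
      field_simp
    linarith
  linarith

/-- Upper bound for the positions. -/
theorem nu_upper (hM : J_MONO) {F : ℤ[X]} {m n₀ : ℕ} {C : ℝ} (hF : Good F m C) (h : Mono F n₀) :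
    ∃ K : ℝ, 0 < K ∧ ∀ᶠ k : ℕ in atTop, (nu F n₀ k : ℝ) ≤ K * (2 : ℝ) ^ ((k : ℝ) / m) := by
  obtain ⟨_, ⟨c, hc, hc1⟩, _⟩ := hM F (by rw [hF.deg]; exact hF.pos) hF.lead
  have h1 := hc1 n₀ h
  rw [hF.deg] at h1
  refine ⟨c + 1, by linarith, ?_⟩
  filter_upwards [h1.eventually (gt_mem_nhds (show c < c + 1 by linarith))] with k hk
  have h2 : (0 : ℝ) < (2 : ℝ) ^ ((k : ℝ) / m) := by positivity
  rw [div_lt_iff₀ h2] at hk
  exact hk.le

theorem rpow_succ (k m : ℕ) : (2 : ℝ) ^ (((k + 1 : ℕ) : ℝ) / m) = (2 : ℝ) ^ ((k : ℝ) / m) * (2 : ℝ) ^ (1 / (m : ℝ)) := by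
  rw [← Real.rpow_add (by norm_num)]
  congr 1
  push_cast
  ring

theorem rpow_one_le {m : ℕ} (hm : 1 ≤ m) : (2 : ℝ) ^ (1 / (m : ℝ)) ≤ 2 := by
  have hm0 : (1 : ℝ) ≤ m := by exact_mod_cast hm
  calc (2 : ℝ) ^ (1 / (m : ℝ)) ≤ (2 : ℝ) ^ (1 : ℝ) := by
        apply Real.rpow_le_rpow_of_exponent_le (by norm_num)
        rw [div_le_one (by linarith)]
        exact hm0
    _ = 2 := Real.rpow_one 2

theorem one_lt_rpow {m : ℕ} (hm : 1 ≤ m) : 1 < (2 : ℝ) ^ (1 / (m : ℝ)) := by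
  have hm0 : (1 : ℝ) ≤ m := by exact_mod_cast hm
  exact Real.one_lt_rpow (by norm_num) (by positivity)

end Pool.Agent.Q224.BH
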